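import Pool.Agent.H.MP_c7fa02_an.A

set_option autoImplicit false

namespace Pool.Agent.H.MP_cea7e0_an

open Polynomial ComplexConjugate Pool.Agent.H.MP_c7fa02_an

def F (k : ℕ) : ℕ := if 16 < k then 0 else if k = 0 then 1 else 87 + min k 8

lemma F_lc : ∀ x < 17, ∀ y < 17, ∀ u < 17, x < u → u < y → F x * F y ≤ F u * F (x + y - u) := by
  decide +kernel

noncomputable def f (k : ℤ) : ℝ := if k < 0 then 0 else F k.toNat

lemma f_nat (k : ℕ) : f k = F k := by
  simp [f]

lemma f_nonneg (k : ℤ) : 0 ≤ f k := by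
  unfold f; split_ifs <;> positivity

lemma f_zero (k : ℤ) (h : k < 0 ∨ ((16:ℕ):ℤ) < k) : f k = 0 := by
  unfold f
  split_ifs with h1
  · rfl
  · have : 16 < k.toNat := by omega
    simp [F, this]

lemma f_lc (x y u v : ℤ) (h1 : x < u) (h2 : u < y) (h3 : u + v = x + y) : f x * f y ≤ f u * f v := by
  by_cases hx : x < 0
  · rw [f_zero x (Or.inl hx), zero_mul]; exact mul_nonneg (f_nonneg _) (f_nonneg _)
  by_cases hy : ((16:ℕ):ℤ) < y
  · rw [f_zero y (Or.inr hy), mul_zero]; exact mul_nonneg (f_nonneg _) (f_nonneg _)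
  obtain ⟨a, rfl⟩ := Int.eq_ofNat_of_zero_le (not_lt.1 hx)
  obtain ⟨b, rfl⟩ := Int.eq_ofNat_of_zero_le (by omega : 0 ≤ y)
  obtain ⟨c, rfl⟩ := Int.eq_ofNat_of_zero_le (by omega : 0 ≤ u)
  have e : v = ((a + b - c : ℕ):ℤ) := by omega
  rw [e, f_nat, f_nat, f_nat, f_nat]
  exact_mod_cast F_lc a (by omega) b (by omega) c (by omega) (by omega) (by omega)

lemma minors (m : ℕ) (hm : m ≤ 2) (a b : Fin m → ℤ) (ha : StrictMono a) (hb : StrictMono b) :
    0 ≤ (Matrix.of fun s t => f (a s - b t)).det := by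
  interval_cases m
  · simp
  · simp [f_nonneg]
  · rw [Matrix.det_fin_two]
    simp only [Matrix.of_apply]
    have h1 : a 0 < a 1 := ha (by decide)
    have h2 : b 0 < b 1 := hb (by decide)
    have := f_lc (a 0 - b 1) (a 1 - b 0) (a 0 - b 0) (a 1 - b 1) (by omega) (by omega) (by ring)
    linarith

lemma stab (z : ℂ) (hz : 0 ≤ z.re) : ∀ n (p : ℂ[X]), p.natDegree = n → p ≠ 0 →
    (∀ x, p.IsRoot x → x.re < 0) → ‖p.eval (-conj z)‖ ≤ ‖p.eval z‖ := by
  refine root_ind _ (fun _ p => ‖p.eval (-conj z)‖ ≤ ‖p.eval z‖) ?_ ?_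
  · intro c _; simp
  · intro n r q hr _ _ _ ih
    simp only [eval_mul, eval_sub, eval_X, eval_C, norm_mul]
    refine mul_le_mul ?_ ih (norm_nonneg _) (norm_nonneg _)
    apply (abs_le_of_sq_le_sq' _ (norm_nonneg _)).2
    simp only [← Complex.normSq_eq_norm_sq, Complex.normSq_apply, Complex.sub_re, Complex.sub_im,
      Complex.neg_re, Complex.neg_im, Complex.conj_re, Complex.conj_im]
    nlinarith [mul_nonneg hz (neg_nonneg.2 hr.le)]

def A (w : GaussianInt) : ℕ → GaussianInt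
  | 0 => 1
  | k+1 => A w k * (w + k)

lemma aeval_poch (w : GaussianInt) (k : ℕ) :
    aeval (GaussianInt.toComplex w) (ascPochhammer ℝ k) = GaussianInt.toComplex (A w k) := by
  induction k with
  | zero => simp [A]
  | succ k ih => rw [ascPochhammer_succ_right, map_mul, ih, A]; simp

def val (w : GaussianInt) : GaussianInt :=
  ∑ k ∈ Finset.range 17, ((Nat.choose 16 k * (F k * F (16 - k)) : ℕ) : GaussianInt) *
    (A w k * A w (16 - k) - A (w + 1) k * A (w - 1) (16 - k))

lemma val_lt : (val ⟨1, 6⟩).norm < (val ⟨-1, 6⟩).norm := by decide +kernel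

noncomputable def P : ℝ[X] :=
  ∑ k ∈ Finset.Nat.antidiagonalTuple 2 16,
    Polynomial.C ((Nat.multinomial Finset.univ k : ℝ) * ∏ i, f ((k i : ℕ) : ℤ)) *
    (Matrix.of fun (i j : Fin 2) => (ascPochhammer ℝ (k i)).comp
      (Polynomial.X + Polynomial.C (((j : ℕ) : ℝ) - ((i : ℕ) : ℝ)))).det

lemma aeval_P (w : GaussianInt) :
    aeval (GaussianInt.toComplex w) P = GaussianInt.toComplex (val w) := by
  rw [P, Finset.Nat.antidiagonalTuple_two, Finset.sum_map,
    Finset.Nat.sum_antidiagonal_eq_sum_range_succ_mk, val, map_sum, map_sum]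
  apply Finset.sum_congr rfl
  intro k hk
  have hk' : k ≤ 16 := by have := Finset.mem_range.1 hk; omega
  have e : ((piFinTwoEquiv fun _ => ℕ).symm.toEmbedding (k, 16 - k) : Fin 2 → ℕ) = ![k, 16 - k] := by
    funext i; fin_cases i <;> rfl
  rw [e, Nat.multinomial_univ_two, Matrix.det_fin_two, Fin.prod_univ_two]
  have e2 : (k + (16 - k)).factorial / (k.factorial * (16 - k).factorial) = Nat.choose 16 k := by
    rw [Nat.choose_eq_factorial_div_factorial hk', Nat.add_sub_cancel' hk']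
  have a1 := aeval_poch w
  have a2 := aeval_poch (w + 1)
  have a3 := aeval_poch (w - 1)
  simp only [map_add, map_sub, map_one] at a2 a3
  rw [e2]
  simp only [Matrix.of_apply, Matrix.cons_val_zero, Matrix.cons_val_one, f_nat, map_mul, map_sub,
    aeval_comp, map_add, aeval_X, aeval_C, Fin.val_zero, Fin.val_one, Nat.cast_zero, Nat.cast_one,
    sub_zero, sub_self, zero_sub, map_zero, add_zero, map_one, map_neg, ← sub_eq_add_neg,
    a1, a2, a3, map_natCast, Nat.cast_mul]

lemma norm_lt : ‖aeval (GaussianInt.toComplex ⟨1, 6⟩) P‖ < ‖aeval (GaussianInt.toComplex ⟨-1, 6⟩) P‖ := by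
  rw [aeval_P, aeval_P]
  apply lt_of_pow_lt_pow_left₀ 2 (norm_nonneg _)
  rw [← Complex.normSq_eq_norm_sq, ← Complex.normSq_eq_norm_sq, ← GaussianInt.intCast_real_norm,
    ← GaussianInt.intCast_real_norm]
  exact_mod_cast val_lt

lemma P_ne : P ≠ 0 := by
  intro h
  have := norm_lt
  rw [h] at this
  simp at this

lemma not_stable : ¬ ∀ z : ℂ, aeval z P = 0 → z.re < 0 := by
  intro h
  have h1 := stab (GaussianInt.toComplex ⟨1, 6⟩) (by simp [GaussianInt.toComplex_def'])
    _ (P.map (algebraMap ℝ ℂ)) rfl (map_ne_zero P_ne) (fun x hx => h x (by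
      rwa [IsRoot, eval_map_algebraMap] at hx))
  have e : -conj (GaussianInt.toComplex ⟨1, 6⟩) = GaussianInt.toComplex ⟨-1, 6⟩ := by
    apply Complex.ext <;> simp [GaussianInt.toComplex_def']
  rw [e, eval_map_algebraMap, eval_map_algebraMap] at h1
  exact absurd norm_lt (not_lt.2 h1)

end Pool.Agent.H.MP_cea7e0_an
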